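import Mathlib

/-!
# AD-TRQ, part A: the isomorphism of the completion of `ℚ` with `ℚ_p` preserves the norm
-/

set_option autoImplicit false
set_option linter.all false

open NumberField IsDedekindDomain Rat.HeightOneSpectrum

namespace Pool.Agent.Q177.AD

instance fpp (p : Nat.Primes) : Fact p.1.Prime := ⟨p.2⟩

theorem asIdeal_span (v : HeightOneSpectrum (𝓞 ℚ)) :
    v.asIdeal = Ideal.span {((natGenerator v : ℕ) : 𝓞 ℚ)} := by
  set p := Rat.HeightOneSpectrum.natGenerator v with hp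
  have h2 := Rat.HeightOneSpectrum.span_natGenerator v
  rw [← hp] at h2
  have h3 := Ideal.comap_map_of_bijective (Rat.IsIntegralClosure.intEquiv (𝓞 ℚ))
    (Rat.IsIntegralClosure.intEquiv (𝓞 ℚ)).bijective (I := v.asIdeal)
  have h4 := Ideal.comap_map_of_bijective (Rat.IsIntegralClosure.intEquiv (𝓞 ℚ))
    (Rat.IsIntegralClosure.intEquiv (𝓞 ℚ)).bijective (I := Ideal.span {((p : ℕ) : 𝓞 ℚ)})
  rw [← h3, ← h4, ← h2, Ideal.map_span, Set.image_singleton, map_natCast]

theorem absNorm_rat (v : HeightOneSpectrum (𝓞 ℚ)) :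
    Ideal.absNorm v.asIdeal = natGenerator v := by
  rw [asIdeal_span v, Ideal.absNorm_span_natCast, RingOfIntegers.rank, Module.finrank_self, pow_one]

theorem norm_p (v : HeightOneSpectrum (𝓞 ℚ)) :
    ‖(((primesEquiv v : Nat.Primes) : ℕ) : v.adicCompletion ℚ)‖ =
      (((primesEquiv v : Nat.Primes) : ℕ) : ℝ)⁻¹ := by
  have h1 : (((primesEquiv v : Nat.Primes) : ℕ) : v.adicCompletion ℚ) =
      FinitePlace.embedding v (((natGenerator v : ℕ) : 𝓞 ℚ) : ℚ) := by
    have h2 : (((natGenerator v : ℕ) : 𝓞 ℚ) : ℚ) = ((natGenerator v : ℕ) : ℚ) :=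
      map_natCast (algebraMap (𝓞 ℚ) ℚ) _
    rw [h2, map_natCast (FinitePlace.embedding v)]
    rfl
  have h0 : ((natGenerator v : ℕ) : 𝓞 ℚ) ≠ 0 := by
    exact_mod_cast (prime_natGenerator v).ne_zero
  rw [h1, FinitePlace.norm_embedding', HeightOneSpectrum.valuation_of_algebraMap,
    HeightOneSpectrum.intValuation_singleton v h0 (asIdeal_span v)]
  have h2 : (((primesEquiv v : Nat.Primes) : ℕ) : ℝ) = (Ideal.absNorm v.asIdeal : ℝ) := by
    rw [absNorm_rat]
    rfl
  rw [h2, WithZeroMulInt.toNNReal_neg_apply _ WithZero.exp_ne_zero]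
  have h3 : Multiplicative.toAdd (WithZero.unzero
      (WithZero.exp_ne_zero : WithZero.exp (-1 : ℤ) ≠ 0)) = -1 := rfl
  rw [h3, zpow_neg_one, NNReal.coe_inv, NNReal.coe_natCast]

theorem norm_le_one_iff (v : HeightOneSpectrum (𝓞 ℚ)) (x : v.adicCompletion ℚ) :
    ‖x‖ ≤ 1 ↔ ‖adicCompletion.padicEquiv v x‖ ≤ 1 := by
  have h1 : ‖x‖ ≤ 1 ↔ x ∈ v.adicCompletionIntegers ℚ := by
    rw [HeightOneSpectrum.mem_adicCompletionIntegers, FinitePlace.norm_def,
      ← WithZeroMulInt.toNNReal_le_one_iff (HeightOneSpectrum.one_lt_absNorm_nnreal v)]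
    exact_mod_cast Iff.rfl
  have h2 := adicCompletion.padicEquiv_bijOn v
  rw [h1]
  constructor
  · intro h
    exact h2.mapsTo h
  · intro h
    obtain ⟨z, hz, hzx⟩ := h2.surjOn h
    rw [← (adicCompletion.padicEquiv v).injective hzx]
    exact hz

theorem norm_equiv (v : HeightOneSpectrum (𝓞 ℚ)) (x : v.adicCompletion ℚ) :
    ‖adicCompletion.padicEquiv v x‖ = ‖x‖ := by
  by_cases hx : x = 0
  · rw [hx, map_zero, norm_zero, norm_zero]
  set p : ℕ := ((primesEquiv v : Nat.Primes) : ℕ) with hp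
  have hp0 : (p : ℚ_[p]) ≠ 0 := by
    exact_mod_cast (primesEquiv v).2.ne_zero
  have hpR : (p : ℝ) ≠ 0 := by
    exact_mod_cast (primesEquiv v).2.ne_zero
  have hy : adicCompletion.padicEquiv v x ≠ 0 := by
    intro h
    exact hx ((adicCompletion.padicEquiv v).injective (h.trans (map_zero _).symm))
  set n := (adicCompletion.padicEquiv v x).valuation with hn
  have h1 : ‖adicCompletion.padicEquiv v x‖ = (p : ℝ) ^ (-n) :=
    Padic.norm_eq_zpow_neg_valuation hy
  set z : v.adicCompletion ℚ := x * (p : v.adicCompletion ℚ) ^ (-n) with hz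
  have h2 : adicCompletion.padicEquiv v z = adicCompletion.padicEquiv v x * (p : ℚ_[p]) ^ (-n) := by
    rw [hz, map_mul, map_zpow₀, map_natCast]
  have h3 : ‖adicCompletion.padicEquiv v z‖ = 1 := by
    rw [h2, norm_mul, h1, norm_zpow, Padic.norm_p, inv_zpow, ← zpow_neg, ← zpow_add₀ hpR]
    simp
  have h4 : ‖z‖ = 1 := by
    apply le_antisymm
    · exact (norm_le_one_iff v z).2 h3.le
    · have h5 : ‖z⁻¹‖ ≤ 1 := by
        rw [norm_le_one_iff, map_inv₀, norm_inv, h3, inv_one]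
      rw [norm_inv] at h5
      by_contra h6
      push Not at h6
      have h7 : z ≠ 0 := by
        intro h8
        rw [h8, map_zero, norm_zero] at h3
        exact zero_ne_one h3
      have h8 : 0 < ‖z‖ := norm_pos_iff.2 h7
      have h9 := (one_lt_inv₀ h8).2 h6
      linarith
  rw [hz, norm_mul, norm_zpow, norm_p v, ← hp, inv_zpow, ← zpow_neg, neg_neg] at h4
  rw [h1, zpow_neg]
  have h5 : (p : ℝ) ^ n ≠ 0 := zpow_ne_zero _ hpR
  field_simp
  linarith

end Pool.Agent.Q177.AD
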