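import Mathlib

/-!
# AD-TRQ, part B: measures
-/

set_option autoImplicit false
set_option linter.all false

open MeasureTheory NumberField NumberField.mixedEmbedding

namespace Pool.Agent.Q177.AD

/-- the real numbers as vectors with one coordinate in the mixed space of `ℚ` -/
noncomputable def EE (t : ℝ) : Fin 1 → mixedSpace ℚ := fun _ => (fun _ => t, fun _ => 0)

theorem isReal_rat (w : InfinitePlace ℚ) : w.IsReal := by
  rw [Subsingleton.elim w Rat.infinitePlace]
  exact Rat.isReal_infinitePlace

theorem fU (α β : Type) [F : Fintype α] (U : Unique α) [MeasureSpace β] :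
    MeasurePreserving (MeasurableEquiv.funUnique α β) volume volume := by
  obtain rfl : F = Unique.fintype := Subsingleton.elim _ _
  exact volume_preserving_funUnique α β

theorem mpE (A B : Type) [Fintype A] [Fintype B] (U : Unique A) [IsEmpty B] :
    MeasurePreserving (fun t : ℝ => ((fun _ => (fun _ => t, fun _ => 0)) :
      Fin 1 → (A → ℝ) × (B → ℂ))) volume volume := by
  have h1 := (fU (Fin 1) ((A → ℝ) × (B → ℂ)) inferInstance).symm
  have h2 := (fU A ℝ U).symm
  have h3 : MeasurePreserving (fun a : (A → ℝ) => ((a, fun _ => 0) : (A → ℝ) × (B → ℂ)))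
      volume volume := by
    refine ⟨measurable_id.prodMk measurable_const, ?_⟩
    have h4 : (volume : Measure (B → ℂ)) = Measure.dirac (fun _ => 0) := by
      rw [volume_pi]
      exact Measure.pi_of_empty _ _
    have h5 : (volume : Measure ((A → ℝ) × (B → ℂ))) =
        (volume : Measure (A → ℝ)).prod (volume : Measure (B → ℂ)) := rfl
    rw [h5, h4, Measure.prod_dirac]
  have h6 := h1.comp (h3.comp h2)
  exact h6

open scoped Classical in
theorem EE_mp : MeasurePreserving EE (volume : Measure ℝ) volume := by
  haveI : IsEmpty {w : InfinitePlace ℚ // w.IsComplex} :=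
    ⟨fun a => InfinitePlace.not_isReal_iff_isComplex.2 a.2 (isReal_rat _)⟩
  exact mpE {w : InfinitePlace ℚ // w.IsReal} {w : InfinitePlace ℚ // w.IsComplex}
    { default := ⟨Rat.infinitePlace, Rat.isReal_infinitePlace⟩
      uniq := fun a => Subtype.ext (Subsingleton.elim _ _) }

theorem normE (t : ℝ) (w : InfinitePlace ℚ) (y : ℚ) (j : Fin 1) :
    normAtPlace w (EE t j - mixedEmbedding ℚ y) = |t - (y : ℝ)| := by
  rw [normAtPlace_apply_of_isReal (isReal_rat w)]
  show ‖t - (mixedEmbedding ℚ y).1 ⟨w, isReal_rat w⟩‖ = _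
  rw [mixedEmbedding_apply_isReal, Real.norm_eq_abs, eq_ratCast]

theorem mult_rat (w : InfinitePlace ℚ) : w.mult = 1 := by
  rw [InfinitePlace.mult, if_pos (isReal_rat w)]

end Pool.Agent.Q177.AD
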