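import Pool.Agent.Q273.AD.StmQ
import Pool.Agent.Q177.AD.TrqA
import Pool.Agent.Q177.AD.TrqB

/-!
# AD-TRQ: transfer from the finite adeles of `ℚ` to the product of the rings `ℤ_p`
-/

set_option autoImplicit false
set_option linter.all false

open MeasureTheory NumberField NumberField.mixedEmbedding
open IsDedekindDomain Pool.Agent.H691R3 Pool.Agent.W232.VA
open Rat.HeightOneSpectrum

namespace Pool.Agent.Q177.AD

open Q273.AD

/-- the map from the product of the rings `ℤ_p` to the finite adelic integers -/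
noncomputable def Ph (η : ZHat) : FinAd ℚ 1 := fun v _ =>
  (adicCompletionIntegers.padicIntEquiv v).symm (η (primesEquiv v))

theorem Ph_cont : Continuous Ph := by
  refine continuous_pi fun v => continuous_pi fun _ => ?_
  exact (adicCompletionIntegers.padicIntEquiv v).symm.continuous.comp (continuous_apply _)

theorem Ph_add (η ζ : ZHat) : Ph (η + ζ) = Ph η + Ph ζ := by
  funext v j
  exact map_add (adicCompletionIntegers.padicIntEquiv v).symm _ _

theorem Ph_surj (g : FinAd ℚ 1) : ∃ η, Ph η = g := by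
  refine ⟨Equiv.piCongrLeft (fun p : Nat.Primes => @PadicInt p.1 ⟨p.2⟩) primesEquiv
    (fun v => adicCompletionIntegers.padicIntEquiv v (g v 0)), ?_⟩
  funext v j
  show (adicCompletionIntegers.padicIntEquiv v).symm
    (Equiv.piCongrLeft (fun p : Nat.Primes => @PadicInt p.1 ⟨p.2⟩) primesEquiv
      (fun v => adicCompletionIntegers.padicIntEquiv v (g v 0)) (primesEquiv v)) = g v j
  rw [Equiv.piCongrLeft_apply_apply, Subsingleton.elim j 0]
  exact (adicCompletionIntegers.padicIntEquiv v).symm_apply_apply _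

theorem Ph_inv [MeasurableSpace ZHat] [BorelSpace ZHat] (μ : Measure ZHat)
    [μ.IsAddLeftInvariant] [MeasurableSpace (FinAd ℚ 1)] [BorelSpace (FinAd ℚ 1)] :
    (μ.map Ph).IsAddLeftInvariant := by
  refine ⟨fun g => ?_⟩
  obtain ⟨g', rfl⟩ := Ph_surj g
  have h1 : Measurable Ph := Ph_cont.measurable
  have h2 : Measurable (fun x : FinAd ℚ 1 => Ph g' + x) :=
    (continuous_const.add continuous_id).measurable
  have h3 : Measurable (fun x : ZHat => g' + x) :=
    (continuous_const.add continuous_id).measurable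
  rw [Measure.map_map h2 h1]
  have h4 : (fun x : FinAd ℚ 1 => Ph g' + x) ∘ Ph = Ph ∘ fun x : ZHat => g' + x := by
    funext x
    exact (Ph_add g' x).symm
  rw [h4, ← Measure.map_map h1 h3, map_add_left_eq_self]

theorem pv_eq (v : HeightOneSpectrum (𝓞 ℚ)) (η : ZHat) (y : ℚ) :
    pv v (Ph η v) (fun _ => y) = mp η (primesEquiv v) y := by
  unfold pv mp
  have h1 : ∀ j : Fin 1, ‖((Ph η v j : v.adicCompletionIntegers ℚ) : v.adicCompletion ℚ) -
      FinitePlace.embedding v y‖ = ‖((η (primesEquiv v) : ℤ_[(primesEquiv v : Nat.Primes).1]) :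
        ℚ_[(primesEquiv v : Nat.Primes).1]) - (y : ℚ_[(primesEquiv v : Nat.Primes).1])‖ := by
    intro j
    rw [← norm_equiv v, map_sub]
    congr 2
    · show adicCompletion.padicEquiv v (((adicCompletionIntegers.padicIntEquiv v).symm
        (η (primesEquiv v)) : v.adicCompletionIntegers ℚ) : v.adicCompletion ℚ) = _
      rw [adicCompletionIntegers.coe_padicIntEquiv_symm_apply]
      exact (adicCompletion.padicEquiv v).apply_symm_apply _
    · rw [eq_ratCast (FinitePlace.embedding v) y]
      exact map_ratCast _ y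
  simp only [h1, ciSup_const]

open scoped Classical in
theorem trq : S_TRQ := by
  refine ⟨primesEquiv, fun v => ?_, ?_⟩
  · unfold Nv
    rw [absNorm_rat]
    rfl
  intro _ _ μ _ _ Q hQ
  letI : MeasurableSpace (FinAd ℚ 1) := borel _
  haveI : BorelSpace (FinAd ℚ 1) := ⟨rfl⟩
  haveI : (μ.map Ph).IsAddLeftInvariant := Ph_inv μ
  haveI : IsFiniteMeasure (μ.map Ph) := inferInstance
  have h1 := hQ (μ.map Ph)
  have h2 : MeasurePreserving Ph μ (μ.map Ph) := ⟨Ph_cont.measurable, rfl⟩
  have h3 := EE_mp.prod h2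
  have h4 := h3.quasiMeasurePreserving.ae h1
  filter_upwards [h4] with u hu
  refine ⟨(EE u.1, Ph u.2), hu, ?_, ?_⟩
  · intro w y
    rw [mult_rat, Nat.cast_one, one_mul]
    unfold pw
    simp only [normE, ciSup_const]
  · intro v y
    exact pv_eq v u.2 y

end Pool.Agent.Q177.AD
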